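import Pool.Agent.Helper73.RT.Defs
import Pool.Agent.Helper81.RT.BadA
import Pool.Agent.Helper37.RT.PairsOf
import Pool.Agent.Helper55.RT.Conf

/-!
# RT-A8b : few colourings have many edge-disjoint red triangles meeting the pairs of `J`
-/

set_option autoImplicit false

open Finset

namespace Pool.Agent.Helper73.RT

/-- RT-A8b. Few colourings have many edge-disjoint red triangles meeting the pairs of `J`
(needs A4, A6). -/
theorem bad_b (t : ℕ) (ht : 10 ≤ t) :
    ({f : Sym2 (Fin (t ^ 40)) → Fin (30 * t ^ 20) |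
        ∃ J : Finset (Fin (t ^ 40)), J.card = aT t ∧ ∃ D : Finset (Finset (Fin (t ^ 40))),
          D.card = 20 * ell t * aT t ∧ EdgeDisj D ∧
          ∀ K ∈ D, (colGraph f 1).IsNClique 3 K ∧ ∃ e ∈ pairsOf K K, e ∈ pairsOf J J}.ncard : ℝ)
      < ((30 * t ^ 20 : ℕ) : ℝ) ^ Fintype.card (Sym2 (Fin (t ^ 40))) / 5 := by
  classical
  have hQ : 0 < 30 * t ^ 20 := by positivity
  have hl : 1 ≤ ell t := by unfold ell; omega
  set a := aT t with ha
  set l := ell t with hl'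
  have hadef : a = 43200 * l * t ^ 20 := rfl
  have htp : 1 ≤ t ^ 20 := Nat.one_le_pow _ _ (by omega)
  have ha1 : 43200 ≤ a := by
    rw [hadef]
    calc 43200 = 43200 * 1 * 1 := by norm_num
      _ ≤ 43200 * l * t ^ 20 := by gcongr
  have hT0 : 0 < 20 * l * a := by positivity
  -- one set `J`
  set B : ℝ := (11 / 100 : ℝ) ^ (20 * l * a) *
    ((30 * t ^ 20 : ℕ) : ℝ) ^ Fintype.card (Sym2 (Fin (t ^ 40))) with hB
  have hone : ∀ J ∈ (Finset.univ : Finset (Fin (t ^ 40))).powersetCard a,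
      (({f : Sym2 (Fin (t ^ 40)) → Fin (30 * t ^ 20) |
        ∃ D : Finset (Finset (Fin (t ^ 40))),
          D.card = 20 * l * a ∧ EdgeDisj D ∧
          ∀ K ∈ D, (colGraph f 1).IsNClique 3 K ∧
            ∃ e ∈ pairsOf K K, e ∈ pairsOf J J} : Set _).ncard : ℝ) ≤ B := by
    intro J hJ
    have hJc : J.card = a := (Finset.mem_powersetCard.1 hJ).2
    refine (conf_bound hQ 1 (by omega) 3 (by norm_num) (pairsOf J J) (20 * l * a) hT0).trans ?_
    rw [hB]
    refine mul_le_mul_of_nonneg_right ?_ (by positivity)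
    refine pow_le_pow_left₀ (by positivity) ?_ _
    rw [pairsOf_self_card, hJc]
    have hch : ((a.choose 2 : ℕ) : ℝ) ≤ (a : ℝ) * (21600 * l * (t : ℝ) ^ 20) := by
      rw [Nat.cast_choose_two]
      have h3 : (a : ℝ) = 43200 * l * (t : ℝ) ^ 20 := by rw [hadef]; push_cast; ring
      have h4 : (a : ℝ) * ((a : ℝ) - 1) / 2 ≤ (a : ℝ) * (a : ℝ) / 2 := by
        have : (0 : ℝ) ≤ a := Nat.cast_nonneg a
        nlinarith
      refine h4.trans (le_of_eq ?_)
      nth_rewrite 2 [h3]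
      ring
    have htpos : (0 : ℝ) < (t : ℝ) := by
      have : 0 < t := by omega
      exact_mod_cast this
    have hlpos : (0 : ℝ) < (l : ℝ) := by exact_mod_cast hl
    have hapos : (0 : ℝ) < (a : ℝ) := by
      have : 0 < a := by omega
      exact_mod_cast this
    have h10 : Real.exp 1 ≤ 275 / 100 := by
      have := Real.exp_one_lt_d9
      norm_num at this ⊢
      linarith
    have e3 : Nat.choose 3 2 = 3 := by decide
    rw [e3]
    have e1 : Real.exp 1 * (((a.choose 2 : ℕ) : ℝ) * ((t ^ 40 : ℕ) : ℝ) ^ (3 - 2)) *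
        (((1 : ℕ) : ℝ) / ((30 * t ^ 20 : ℕ) : ℝ)) ^ 3 / ((20 * l * a : ℕ) : ℝ) ≤
        (275 / 100) * (((a : ℝ) * (21600 * l * (t : ℝ) ^ 20)) * ((t ^ 40 : ℕ) : ℝ) ^ (3 - 2)) *
        (((1 : ℕ) : ℝ) / ((30 * t ^ 20 : ℕ) : ℝ)) ^ 3 / ((20 * l * a : ℕ) : ℝ) := by
      gcongr
    refine e1.trans (le_of_eq ?_)
    push_cast
    field_simp
    norm_num
  have hsub : ({f : Sym2 (Fin (t ^ 40)) → Fin (30 * t ^ 20) |
        ∃ J : Finset (Fin (t ^ 40)), J.card = a ∧ ∃ D : Finset (Finset (Fin (t ^ 40))),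
          D.card = 20 * l * a ∧ EdgeDisj D ∧
          ∀ K ∈ D, (colGraph f 1).IsNClique 3 K ∧
            ∃ e ∈ pairsOf K K, e ∈ pairsOf J J} : Set _) ⊆
      {f | ∃ J ∈ (Finset.univ : Finset (Fin (t ^ 40))).powersetCard a,
        ∃ D : Finset (Finset (Fin (t ^ 40))),
          D.card = 20 * l * a ∧ EdgeDisj D ∧
          ∀ K ∈ D, (colGraph f 1).IsNClique 3 K ∧
            ∃ e ∈ pairsOf K K, e ∈ pairsOf J J} := by
    rintro f ⟨J, hJ, h⟩
    exact ⟨J, Finset.mem_powersetCard.2 ⟨Finset.subset_univ _, hJ⟩, h⟩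
  have hle := (Nat.cast_le (α := ℝ)).2 (Set.ncard_le_ncard hsub (Set.toFinite _))
  have hun := ncard_exists_le_a8a ((Finset.univ : Finset (Fin (t ^ 40))).powersetCard a)
    (fun J (f : Sym2 (Fin (t ^ 40)) → Fin (30 * t ^ 20)) =>
      ∃ D : Finset (Finset (Fin (t ^ 40))),
          D.card = 20 * l * a ∧ EdgeDisj D ∧
          ∀ K ∈ D, (colGraph f 1).IsNClique 3 K ∧
            ∃ e ∈ pairsOf K K, e ∈ pairsOf J J) B hone
  refine lt_of_le_of_lt (hle.trans hun) ?_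
  have hcard : (((Finset.univ : Finset (Fin (t ^ 40))).powersetCard a).card : ℝ) ≤
      4 ^ (20 * l * a) := by
    rw [Finset.card_powersetCard, Finset.card_univ, Fintype.card_fin]
    have h1 : (t ^ 40).choose a ≤ (t ^ 40) ^ a := Nat.choose_le_pow _ _
    have h2 : (t ^ 40) ^ a ≤ ((2 ^ l) ^ 40) ^ a := by
      gcongr
      exact (lt_two_pow_ell_a8a t).le
    have h3 : ((2 ^ l) ^ 40) ^ a = 4 ^ (20 * l * a) := by
      have h4 : (4 : ℕ) = 2 ^ 2 := by norm_num
      rw [h4, ← pow_mul, ← pow_mul, ← pow_mul]; ring_nf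
    exact_mod_cast (h1.trans h2).trans (le_of_eq h3)
  set K : ℝ := ((30 * t ^ 20 : ℕ) : ℝ) ^ Fintype.card (Sym2 (Fin (t ^ 40))) with hK
  have hKpos : 0 < K := by rw [hK]; exact pow_pos (by exact_mod_cast hQ) _
  have hBnn : 0 ≤ B := by rw [hB]; positivity
  refine lt_of_le_of_lt (mul_le_mul_of_nonneg_right hcard hBnn) ?_
  have hkey : (4 : ℝ) ^ (20 * l * a) * (11 / 100 : ℝ) ^ (20 * l * a) < 1 / 5 := by
    rw [← mul_pow]
    have h1 : 2 ≤ 20 * l * a := by nlinarith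
    have h2 : ((4 : ℝ) * (11 / 100)) ^ (20 * l * a) ≤ ((4 : ℝ) * (11 / 100)) ^ 2 :=
      pow_le_pow_of_le_one (by norm_num) (by norm_num) h1
    refine lt_of_le_of_lt h2 (by norm_num)
  calc (4 : ℝ) ^ (20 * l * a) * B
      = (4 : ℝ) ^ (20 * l * a) * (11 / 100 : ℝ) ^ (20 * l * a) * K := by
        rw [hB]; ring
    _ < 1 / 5 * K := mul_lt_mul_of_pos_right hkey hKpos
    _ = K / 5 := by ring

end Pool.Agent.Helper73.RT
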